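import Pool.Agent.Helper98.EY.StmtsB

set_option autoImplicit false
set_option linter.unusedSectionVars false

namespace Pool.Agent.Helper98.EX

open Finset

section mfvar

variable {V : Type} [Fintype V] [DecidableEq V]

/-- transposition acting on sets -/
def mfvar_sg (x y : V) (S : Finset V) : Finset V := S.map (Equiv.swap x y).toEmbedding

lemma mfvar_mem (x y v : V) (S : Finset V) : v ∈ mfvar_sg x y S ↔ Equiv.swap x y v ∈ S := by
  unfold mfvar_sg
  rw [Finset.mem_map_equiv, Equiv.symm_swap]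

lemma mfvar_sg_sg (x y : V) (S : Finset V) : mfvar_sg x y (mfvar_sg x y S) = S := by
  ext v
  rw [mfvar_mem, mfvar_mem, Equiv.swap_apply_self]

lemma mfvar_card (x y : V) (S : Finset V) : (mfvar_sg x y S).card = S.card := Finset.card_map _

lemma mfvar_comm (x y : V) (S : Finset V) : mfvar_sg x y S = mfvar_sg y x S := by
  unfold mfvar_sg; rw [Equiv.swap_comm]

lemma mfvar_same (x y : V) (S : Finset V) (h : x ∈ S ↔ y ∈ S) : mfvar_sg x y S = S := by
  ext v
  rw [mfvar_mem]
  by_cases h1 : v = x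
  · subst h1; rw [Equiv.swap_apply_left]; exact h.symm
  · by_cases h2 : v = y
    · subst h2; rw [Equiv.swap_apply_right]; exact h
    · rw [Equiv.swap_apply_of_ne_of_ne h1 h2]

lemma mfvar_diff (x y : V) (S : Finset V) (hx : x ∈ S) (hy : y ∉ S) :
    mfvar_sg x y S = insert y (S.erase x) := by
  have hxy : x ≠ y := fun h => hy (h ▸ hx)
  ext v
  rw [mfvar_mem, Finset.mem_insert, Finset.mem_erase]
  by_cases h1 : v = x
  · subst h1
    rw [Equiv.swap_apply_left]
    constructor
    · intro h; exact absurd h hy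
    · rintro (h | h)
      · exact absurd h hxy
      · exact absurd rfl h.1
  · by_cases h2 : v = y
    · subst h2; rw [Equiv.swap_apply_right]; simp [hx]
    · rw [Equiv.swap_apply_of_ne_of_ne h1 h2]
      constructor
      · intro h; exact Or.inr ⟨h1, h⟩
      · rintro (h | h)
        · exact absurd h h2
        · exact h.2

lemma mfvar_w (ω : V → ℝ) (x y : V) (S : Finset V) (hx : x ∈ S) (hy : y ∉ S) :
    wset ω (mfvar_sg x y S) * ω x = wset ω S * ω y := by
  rw [mfvar_diff x y S hx hy]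
  unfold wset
  have hy' : y ∉ S.erase x := fun h => hy (Finset.mem_of_mem_erase h)
  rw [Finset.prod_insert hy', ← Finset.mul_prod_erase S ω hx]
  ring

lemma mfvar_sdiff (x y : V) (S T : Finset V) :
    mfvar_sg x y S \ mfvar_sg x y T = mfvar_sg x y (S \ T) := by
  ext v
  rw [Finset.mem_sdiff, mfvar_mem, mfvar_mem, mfvar_mem, Finset.mem_sdiff]

lemma mfvar_reindex (x y : V) (j : ℕ) (F : Finset V → ℝ) :
    ∑ S ∈ Finset.powersetCard j univ, F (mfvar_sg x y S) = ∑ S ∈ Finset.powersetCard j univ, F S := by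
  apply Finset.sum_nbij' (mfvar_sg x y) (mfvar_sg x y)
  · intro S hS
    rw [Finset.mem_powersetCard_univ] at hS ⊢
    rw [mfvar_card, hS]
  · intro S hS
    rw [Finset.mem_powersetCard_univ] at hS ⊢
    rw [mfvar_card, hS]
  · intro S _; exact mfvar_sg_sg x y S
  · intro S _; exact mfvar_sg_sg x y S
  · intro S _; rfl

/-- heat bath for the pair x y -/
noncomputable def mfvar_P (ω : V → ℝ) (x y : V) : (Finset V → ℝ) →ₗ[ℝ] (Finset V → ℝ) where
  toFun f S := (wset ω S * f S + wset ω (mfvar_sg x y S) * f (mfvar_sg x y S)) /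
    (wset ω S + wset ω (mfvar_sg x y S))
  map_add' f g := by
    funext S
    simp only [Pi.add_apply]
    rw [← add_div]; congr 1; ring
  map_smul' c f := by
    funext S
    simp only [Pi.smul_apply, smul_eq_mul, RingHom.id_apply]
    rw [← mul_div_assoc]; congr 1; ring

lemma mfvar_P_apply (ω : V → ℝ) (x y : V) (f : Finset V → ℝ) (S : Finset V) :
    mfvar_P ω x y f S = (wset ω S * f S + wset ω (mfvar_sg x y S) * f (mfvar_sg x y S)) /
    (wset ω S + wset ω (mfvar_sg x y S)) := rfl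

/-- sum of all heat baths -/
noncomputable def mfvar_A (ω : V → ℝ) : (Finset V → ℝ) →ₗ[ℝ] (Finset V → ℝ) :=
  ∑ x : V, ∑ y : V, mfvar_P ω x y

lemma mfvar_A_apply (ω : V → ℝ) (f : Finset V → ℝ) (S : Finset V) :
    mfvar_A ω f S = ∑ x : V, ∑ y : V, mfvar_P ω x y f S := by
  unfold mfvar_A
  simp only [LinearMap.sum_apply, Finset.sum_apply]

/-- inner product -/
noncomputable def mfvar_ip (ω : V → ℝ) (j : ℕ) (f g : Finset V → ℝ) : ℝ :=
  ∑ S ∈ Finset.powersetCard j univ, wset ω S * f S * g S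

lemma mfvar_wpos (ω : V → ℝ) (hω : ∀ v, 0 < ω v) (S : Finset V) : 0 < wset ω S :=
  Finset.prod_pos (fun v _ => hω v)

lemma mfvar_ip_P (ω : V → ℝ) (hω : ∀ v, 0 < ω v) (j : ℕ) (x y : V) (f g : Finset V → ℝ) :
    mfvar_ip ω j g (mfvar_P ω x y f) = ∑ S ∈ Finset.powersetCard j univ,
      (1 / 2) * ((wset ω S * g S + wset ω (mfvar_sg x y S) * g (mfvar_sg x y S)) *
        (wset ω S * f S + wset ω (mfvar_sg x y S) * f (mfvar_sg x y S)) /
        (wset ω S + wset ω (mfvar_sg x y S))) := by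
  have h1 : mfvar_ip ω j g (mfvar_P ω x y f) = ∑ S ∈ Finset.powersetCard j univ,
      wset ω (mfvar_sg x y S) * g (mfvar_sg x y S) * mfvar_P ω x y f (mfvar_sg x y S) :=
    (mfvar_reindex x y j (fun S => wset ω S * g S * mfvar_P ω x y f S)).symm
  have h2 : mfvar_ip ω j g (mfvar_P ω x y f) = (1 / 2) * (mfvar_ip ω j g (mfvar_P ω x y f) +
    mfvar_ip ω j g (mfvar_P ω x y f)) := by ring
  rw [h2]
  nth_rewrite 2 [h1]
  unfold mfvar_ip
  rw [← Finset.sum_add_distrib, Finset.mul_sum]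
  apply Finset.sum_congr rfl
  intro S _
  rw [mfvar_P_apply, mfvar_P_apply, mfvar_sg_sg]
  have hw1 := mfvar_wpos ω hω S
  have hw2 := mfvar_wpos ω hω (mfvar_sg x y S)
  field_simp
  ring

lemma mfvar_P_symm (ω : V → ℝ) (hω : ∀ v, 0 < ω v) (j : ℕ) (x y : V) (f g : Finset V → ℝ) :
    mfvar_ip ω j g (mfvar_P ω x y f) = mfvar_ip ω j f (mfvar_P ω x y g) := by
  rw [mfvar_ip_P ω hω, mfvar_ip_P ω hω]
  apply Finset.sum_congr rfl
  intro S _
  ring

lemma mfvar_P_nonneg (ω : V → ℝ) (hω : ∀ v, 0 < ω v) (j : ℕ) (x y : V) (f : Finset V → ℝ) :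
    0 ≤ mfvar_ip ω j f (mfvar_P ω x y f) := by
  rw [mfvar_ip_P ω hω]
  apply Finset.sum_nonneg
  intro S _
  have hw1 := mfvar_wpos ω hω S
  have hw2 := mfvar_wpos ω hω (mfvar_sg x y S)
  have : (wset ω S * f S + wset ω (mfvar_sg x y S) * f (mfvar_sg x y S)) *
        (wset ω S * f S + wset ω (mfvar_sg x y S) * f (mfvar_sg x y S)) =
      (wset ω S * f S + wset ω (mfvar_sg x y S) * f (mfvar_sg x y S)) ^ 2 := by ring
  rw [this]
  positivity

lemma mfvar_ip_comm (ω : V → ℝ) (j : ℕ) (f g : Finset V → ℝ) : mfvar_ip ω j f g = mfvar_ip ω j g f := by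
  unfold mfvar_ip
  apply Finset.sum_congr rfl
  intro S _
  ring

lemma mfvar_ip_A (ω : V → ℝ) (j : ℕ) (f g : Finset V → ℝ) :
    mfvar_ip ω j g (mfvar_A ω f) = ∑ x : V, ∑ y : V, mfvar_ip ω j g (mfvar_P ω x y f) := by
  unfold mfvar_ip
  have h1 : ∀ S, wset ω S * g S * mfvar_A ω f S = ∑ x : V, ∑ y : V, wset ω S * g S * mfvar_P ω x y f S := by
    intro S
    rw [mfvar_A_apply, Finset.mul_sum]
    apply Finset.sum_congr rfl
    intro x _
    rw [Finset.mul_sum]
  simp only [h1]
  rw [Finset.sum_comm]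
  apply Finset.sum_congr rfl
  intro x _
  rw [Finset.sum_comm]

lemma mfvar_A_symm (ω : V → ℝ) (hω : ∀ v, 0 < ω v) (j : ℕ) (f g : Finset V → ℝ) :
    mfvar_ip ω j g (mfvar_A ω f) = mfvar_ip ω j f (mfvar_A ω g) := by
  rw [mfvar_ip_A, mfvar_ip_A]
  apply Finset.sum_congr rfl
  intro x _
  apply Finset.sum_congr rfl
  intro y _
  exact mfvar_P_symm ω hω j x y f g

lemma mfvar_A_nonneg (ω : V → ℝ) (hω : ∀ v, 0 < ω v) (j : ℕ) (f : Finset V → ℝ) :
    0 ≤ mfvar_ip ω j f (mfvar_A ω f) := by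
  rw [mfvar_ip_A]
  exact Finset.sum_nonneg (fun x _ => Finset.sum_nonneg (fun y _ => mfvar_P_nonneg ω hω j x y f))

lemma mfvar_ip_self (ω : V → ℝ) (hω : ∀ v, 0 < ω v) (j : ℕ) (f : Finset V → ℝ) :
    0 ≤ mfvar_ip ω j f f := by
  unfold mfvar_ip
  apply Finset.sum_nonneg
  intro S _
  have hw1 := mfvar_wpos ω hω S
  have : wset ω S * f S * f S = wset ω S * (f S) ^ 2 := by ring
  rw [this]
  positivity

lemma mfvar_pow_symm (ω : V → ℝ) (hω : ∀ v, 0 < ω v) (j : ℕ) (k : ℕ) : ∀ f g : Finset V → ℝ,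
    mfvar_ip ω j g ((mfvar_A ω ^ k) f) = mfvar_ip ω j f ((mfvar_A ω ^ k) g) := by
  induction k with
  | zero => intro f g; simp only [pow_zero, Module.End.one_apply]; exact mfvar_ip_comm ω j g f
  | succ k ih =>
    intro f g
    have e1 : (mfvar_A ω ^ (k + 1)) f = mfvar_A ω ((mfvar_A ω ^ k) f) := by
      rw [pow_succ', Module.End.mul_apply]
    have e2 : (mfvar_A ω ^ (k + 1)) g = (mfvar_A ω ^ k) (mfvar_A ω g) := by
      rw [pow_succ, Module.End.mul_apply]
    rw [e1, e2, mfvar_A_symm ω hω, mfvar_ip_comm, ih, mfvar_ip_comm]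

lemma mfvar_pow_nonneg (ω : V → ℝ) (hω : ∀ v, 0 < ω v) (j : ℕ) (k : ℕ) (f : Finset V → ℝ) :
    0 ≤ mfvar_ip ω j f ((mfvar_A ω ^ k) f) := by
  rcases Nat.even_or_odd' k with ⟨i, h | h⟩
  · have e1 : (mfvar_A ω ^ k) f = (mfvar_A ω ^ i) ((mfvar_A ω ^ i) f) := by
      rw [h, two_mul, pow_add, Module.End.mul_apply]
    rw [e1, mfvar_pow_symm ω hω]
    exact mfvar_ip_self ω hω j _
  · have e1 : (mfvar_A ω ^ k) f = (mfvar_A ω ^ i) (mfvar_A ω ((mfvar_A ω ^ i) f)) := by
      rw [h, show 2 * i + 1 = i + (i + 1) by ring, pow_add, pow_succ', Module.End.mul_apply, Module.End.mul_apply]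
    rw [e1, mfvar_pow_symm ω hω, mfvar_ip_comm]
    exact mfvar_A_nonneg ω hω j _

lemma mfvar_ip_add_right (ω : V → ℝ) (j : ℕ) (f g h : Finset V → ℝ) :
    mfvar_ip ω j f (g + h) = mfvar_ip ω j f g + mfvar_ip ω j f h := by
  unfold mfvar_ip
  rw [← Finset.sum_add_distrib]
  apply Finset.sum_congr rfl
  intro S _
  simp only [Pi.add_apply]
  ring

lemma mfvar_ip_smul_right (ω : V → ℝ) (j : ℕ) (c : ℝ) (f g : Finset V → ℝ) :
    mfvar_ip ω j f (c • g) = c * mfvar_ip ω j f g := by
  unfold mfvar_ip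
  rw [Finset.mul_sum]
  apply Finset.sum_congr rfl
  intro S _
  simp only [Pi.smul_apply, smul_eq_mul]
  ring

/-- log-convexity -/
lemma mfvar_logconv (ω : V → ℝ) (hω : ∀ v, 0 < ω v) (j : ℕ) (k : ℕ) (f : Finset V → ℝ) :
    mfvar_ip ω j f ((mfvar_A ω ^ (k + 1)) f) ^ 2 ≤
      mfvar_ip ω j f ((mfvar_A ω ^ k) f) * mfvar_ip ω j f ((mfvar_A ω ^ (k + 2)) f) := by
  have hq : ∀ t : ℝ, 0 ≤ mfvar_ip ω j f ((mfvar_A ω ^ (k + 2)) f) * (t * t) +
      (2 * mfvar_ip ω j f ((mfvar_A ω ^ (k + 1)) f)) * t + mfvar_ip ω j f ((mfvar_A ω ^ k) f) := by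
    intro t
    have h0 := mfvar_pow_nonneg ω hω j k (f + t • mfvar_A ω f)
    rw [map_add, map_smul] at h0
    rw [mfvar_ip_add_right, mfvar_ip_comm, mfvar_ip_add_right, mfvar_ip_smul_right, mfvar_ip_smul_right,
      mfvar_ip_comm ω j (f + t • mfvar_A ω f), mfvar_ip_add_right, mfvar_ip_smul_right] at h0
    have e1 : mfvar_ip ω j ((mfvar_A ω ^ k) f) (mfvar_A ω f) = mfvar_ip ω j f ((mfvar_A ω ^ (k + 1)) f) := by
      rw [mfvar_A_symm ω hω, pow_succ', Module.End.mul_apply]
    have e2 : mfvar_ip ω j ((mfvar_A ω ^ k) (mfvar_A ω f)) f = mfvar_ip ω j f ((mfvar_A ω ^ (k + 1)) f) := by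
      rw [mfvar_ip_comm, pow_succ, Module.End.mul_apply]
    have e3 : mfvar_ip ω j ((mfvar_A ω ^ k) (mfvar_A ω f)) (mfvar_A ω f) =
        mfvar_ip ω j f ((mfvar_A ω ^ (k + 2)) f) := by
      rw [mfvar_A_symm ω hω, show k + 2 = (k + 1) + 1 by ring, pow_succ', Module.End.mul_apply, pow_succ,
        Module.End.mul_apply]
    rw [e1, e2, e3, mfvar_ip_comm ω j _ f] at h0
    linarith
  have := discrim_le_zero hq
  unfold discrim at this
  nlinarith

/-- adjacency bound -/
def mfvar_Lip (j : ℕ) (c : ℝ) (f : Finset V → ℝ) : Prop :=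
  ∀ S T : Finset V, S.card = j → T.card = j → (S \ T).card ≤ 1 → |f S - f T| ≤ c

omit [Fintype V] [DecidableEq V] in
lemma mfvar_conv1 (p q1 q2 w1 w2 c : ℝ) (hw1 : 0 < w1) (hw2 : 0 < w2) (h1 : |p - q1| ≤ c) (h2 : |p - q2| ≤ c) :
    |p - (w1 * q1 + w2 * q2) / (w1 + w2)| ≤ c := by
  have hw : 0 < w1 + w2 := by positivity
  rw [abs_le] at h1 h2 ⊢
  constructor
  · rw [neg_le_sub_iff_le_add, div_le_iff₀ hw]
    nlinarith [mul_le_mul_of_nonneg_left h1.1 hw1.le, mul_le_mul_of_nonneg_left h2.1 hw2.le]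
  · rw [sub_le_iff_le_add, ← sub_le_iff_le_add', le_div_iff₀ hw]
    nlinarith [mul_le_mul_of_nonneg_left h1.2 hw1.le, mul_le_mul_of_nonneg_left h2.2 hw2.le]

omit [Fintype V] [DecidableEq V] in
lemma mfvar_conv2 (p1 p2 q1 q2 w1 w2 v1 v2 c : ℝ) (hw1 : 0 < w1) (hw2 : 0 < w2) (hv1 : 0 < v1) (hv2 : 0 < v2)
    (hr : w1 * v2 = w2 * v1) (h1 : |p1 - q1| ≤ c) (h2 : |p2 - q2| ≤ c) :
    |(w1 * p1 + w2 * p2) / (w1 + w2) - (v1 * q1 + v2 * q2) / (v1 + v2)| ≤ c := by
  have hw : 0 < w1 + w2 := by positivity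
  have hv : 0 < v1 + v2 := by positivity
  have e1 : (v1 * q1 + v2 * q2) / (v1 + v2) = (w1 * q1 + w2 * q2) / (w1 + w2) := by
    rw [div_eq_div_iff hv.ne' hw.ne']
    linear_combination (q2 - q1) * hr
  rw [e1, ← sub_div]
  have e2 : w1 * p1 + w2 * p2 - (w1 * q1 + w2 * q2) = w1 * (p1 - q1) + w2 * (p2 - q2) := by ring
  rw [e2, abs_div, abs_of_pos hw, div_le_iff₀ hw]
  calc |w1 * (p1 - q1) + w2 * (p2 - q2)| ≤ |w1 * (p1 - q1)| + |w2 * (p2 - q2)| := abs_add_le _ _
    _ = w1 * |p1 - q1| + w2 * |p2 - q2| := by rw [abs_mul, abs_mul, abs_of_pos hw1, abs_of_pos hw2]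
    _ ≤ w1 * c + w2 * c := add_le_add (mul_le_mul_of_nonneg_left h1 hw1.le) (mul_le_mul_of_nonneg_left h2 hw2.le)
    _ = c * (w1 + w2) := by ring

lemma mfvar_P_same (ω : V → ℝ) (hω : ∀ v, 0 < ω v) (x y : V) (f : Finset V → ℝ) (S : Finset V) (h : x ∈ S ↔ y ∈ S) :
    mfvar_P ω x y f S = f S := by
  rw [mfvar_P_apply, mfvar_same x y S h]
  have := mfvar_wpos ω hω S
  field_simp

/-- one pair -/
lemma mfvar_pair (ω : V → ℝ) (hω : ∀ v, 0 < ω v) (j : ℕ) (c : ℝ) (f : Finset V → ℝ) (hf : mfvar_Lip j c f)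
    (S T : Finset V) (hS : S.card = j) (hT : T.card = j) (a b : V) (hST : S \ T = {a}) (hTS : T \ S = {b})
    (x y : V) : |mfvar_P ω x y f S - mfvar_P ω x y f T| ≤
      c - (if x = a then (if y = b then c else 0) else 0) - (if x = b then (if y = a then c else 0) else 0) := by
  have hc1 : (S \ T).card ≤ 1 := by rw [hST, Finset.card_singleton]
  have hc2 : (T \ S).card ≤ 1 := by rw [hTS, Finset.card_singleton]
  have haS : a ∈ S ∧ a ∉ T := by
    have : a ∈ S \ T := by rw [hST]; exact Finset.mem_singleton_self a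
    exact Finset.mem_sdiff.1 this
  have hbT : b ∈ T ∧ b ∉ S := by
    have : b ∈ T \ S := by rw [hTS]; exact Finset.mem_singleton_self b
    exact Finset.mem_sdiff.1 this
  have hab : a ≠ b := fun h => hbT.2 (h ▸ haS.1)
  have hmem : ∀ v, v ∈ S → v ∉ T → v = a := fun v h1 h2 => by
    have : v ∈ S \ T := Finset.mem_sdiff.2 ⟨h1, h2⟩
    rw [hST] at this; exact Finset.mem_singleton.1 this
  have hmem' : ∀ v, v ∈ T → v ∉ S → v = b := fun v h1 h2 => by
    have : v ∈ T \ S := Finset.mem_sdiff.2 ⟨h1, h2⟩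
    rw [hTS] at this; exact Finset.mem_singleton.1 this
  have hTeq : mfvar_sg a b S = T := by
    rw [mfvar_diff a b S haS.1 hbT.2]
    ext v
    rw [Finset.mem_insert, Finset.mem_erase]
    constructor
    · rintro (h | ⟨h1, h2⟩)
      · rw [h]; exact hbT.1
      · by_contra h3; exact h1 (hmem v h2 h3)
    · intro h
      by_cases h1 : v ∈ S
      · right; exact ⟨fun h2 => haS.2 (h2 ▸ h), h1⟩
      · left; exact hmem' v h h1
  have hSeq : mfvar_sg a b T = S := by rw [← hTeq, mfvar_sg_sg]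
  have h0 : |mfvar_P ω a b f S - mfvar_P ω a b f T| = 0 := by
    rw [mfvar_P_apply, mfvar_P_apply, hTeq, hSeq]
    have : (wset ω S * f S + wset ω T * f T) / (wset ω S + wset ω T) =
      (wset ω T * f T + wset ω S * f S) / (wset ω T + wset ω S) := by congr 1 <;> ring
    rw [this, sub_self, abs_zero]
  by_cases h1 : x = a ∧ y = b
  · obtain ⟨rfl, rfl⟩ := h1
    rw [h0]
    simp [hab]
  by_cases h2 : x = b ∧ y = a
  · obtain ⟨rfl, rfl⟩ := h2
    have : |mfvar_P ω x y f S - mfvar_P ω x y f T| = 0 := by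
      rw [mfvar_P_apply, mfvar_P_apply, mfvar_comm x y, mfvar_comm x y, ← mfvar_P_apply, ← mfvar_P_apply]
      exact h0
    rw [this]
    simp [hab.symm]
  have hr : c - (if x = a then (if y = b then c else 0) else 0) - (if x = b then (if y = a then c else 0) else 0) = c := by
    have e1 : (if x = a then (if y = b then c else 0) else 0) = 0 := by
      split_ifs with h3 h4
      · exact absurd ⟨h3, h4⟩ h1
      · rfl
      · rfl
    have e2 : (if x = b then (if y = a then c else 0) else 0) = 0 := by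
      split_ifs with h3 h4
      · exact absurd ⟨h3, h4⟩ h2
      · rfl
      · rfl
    rw [e1, e2]; ring
  rw [hr]
  by_cases hS' : x ∈ S ↔ y ∈ S
  · by_cases hT' : x ∈ T ↔ y ∈ T
    · rw [mfvar_P_same ω hω x y f S hS', mfvar_P_same ω hω x y f T hT']
      exact hf S T hS hT hc1
    · rw [mfvar_P_same ω hω x y f S hS', mfvar_P_apply ω x y f T]
      apply mfvar_conv1 _ _ _ _ _ _ (mfvar_wpos ω hω _) (mfvar_wpos ω hω _) (hf S T hS hT hc1)
      apply hf S _ hS (by rw [mfvar_card, hT])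
      have e1 : S \ mfvar_sg x y T = mfvar_sg x y (S \ T) := by
        rw [← mfvar_sdiff, mfvar_same x y S hS']
      rw [e1, mfvar_card]
      exact hc1
  · by_cases hT' : x ∈ T ↔ y ∈ T
    · rw [mfvar_P_same ω hω x y f T hT', mfvar_P_apply ω x y f S, abs_sub_comm]
      apply mfvar_conv1 _ _ _ _ _ _ (mfvar_wpos ω hω _) (mfvar_wpos ω hω _) (hf T S hT hS hc2)
      apply hf T _ hT (by rw [mfvar_card, hS])
      have e1 : T \ mfvar_sg x y S = mfvar_sg x y (T \ S) := by
        rw [← mfvar_sdiff, mfvar_same x y T hT']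
      rw [e1, mfvar_card]
      exact hc2
    · rw [mfvar_P_apply, mfvar_P_apply]
      have hlast : |f (mfvar_sg x y S) - f (mfvar_sg x y T)| ≤ c := by
        apply hf _ _ (by rw [mfvar_card, hS]) (by rw [mfvar_card, hT])
        rw [mfvar_sdiff, mfvar_card]
        exact hc1
      apply mfvar_conv2 _ _ _ _ _ _ _ _ _ (mfvar_wpos ω hω _) (mfvar_wpos ω hω _) (mfvar_wpos ω hω _)
        (mfvar_wpos ω hω _) _ (hf S T hS hT hc1) hlast
      have key : ∀ x y : V, x ∈ S → y ∉ S → x ∈ T → y ∉ T →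
          wset ω S * wset ω (mfvar_sg x y T) = wset ω (mfvar_sg x y S) * wset ω T := by
        intro x y k1 k2 k3 k4
        have k5 := mfvar_w ω x y S k1 k2
        have k6 := mfvar_w ω x y T k3 k4
        have hx := hω x
        have : wset ω S * wset ω (mfvar_sg x y T) * ω x = wset ω (mfvar_sg x y S) * wset ω T * ω x := by
          linear_combination wset ω S * k6 - wset ω T * k5
        exact mul_right_cancel₀ hx.ne' this
      by_cases hxS : x ∈ S
      · have hyS : y ∉ S := fun h => hS' ⟨fun _ => h, fun _ => hxS⟩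
        by_cases hxT : x ∈ T
        · have hyT : y ∉ T := fun h => hT' ⟨fun _ => h, fun _ => hxT⟩
          exact key x y hxS hyS hxT hyT
        · have hyT : y ∈ T := by
            by_contra h; exact hT' ⟨fun h' => absurd h' hxT, fun h' => absurd h' h⟩
          exact absurd ⟨hmem x hxS hxT, hmem' y hyT hyS⟩ h1
      · have hyS : y ∈ S := by
          by_contra h; exact hS' ⟨fun h' => absurd h' hxS, fun h' => absurd h' h⟩
        by_cases hxT : x ∈ T
        · have hyT : y ∉ T := fun h => hT' ⟨fun _ => h, fun _ => hxT⟩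
          exact absurd ⟨hmem' x hxT hxS, hmem y hyS hyT⟩ h2
        · have hyT : y ∈ T := by
            by_contra h; exact hT' ⟨fun h' => absurd h' hxT, fun h' => absurd h' h⟩
          have := key y x hyS hxS hyT hxT
          rw [mfvar_comm y x, mfvar_comm y x] at this
          exact this

lemma mfvar_eq_of_card (S T : Finset V) (h : S.card = T.card) (h0 : (S \ T).card = 0) : S = T := by
  rw [Finset.card_eq_zero, Finset.sdiff_eq_empty_iff_subset] at h0
  exact Finset.eq_of_subset_of_card_le h0 h.ge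

lemma mfvar_LipA (ω : V → ℝ) (hω : ∀ v, 0 < ω v) (hn : 2 ≤ Fintype.card V) (j : ℕ) (c : ℝ) (hc : 0 ≤ c)
    (f : Finset V → ℝ) (hf : mfvar_Lip j c f) :
    mfvar_Lip j (((Fintype.card V : ℝ) ^ 2 - 2) * c) (mfvar_A ω f) := by
  have hn' : (2 : ℝ) ≤ Fintype.card V := by exact_mod_cast hn
  have hθ : 0 ≤ ((Fintype.card V : ℝ) ^ 2 - 2) * c := by
    apply mul_nonneg _ hc
    nlinarith
  intro S T hS hT hd
  by_cases hST : S = T
  · subst hST; rw [sub_self, abs_zero]; exact hθ
  have hcc : (S \ T).card = (T \ S).card := Finset.card_sdiff_comm (hS.trans hT.symm)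
  have h1 : (S \ T).card = 1 := by
    rcases Nat.eq_zero_or_pos (S \ T).card with h | h
    · exact absurd (mfvar_eq_of_card S T (hS.trans hT.symm) h) hST
    · omega
  obtain ⟨a, ha⟩ := Finset.card_eq_one.1 h1
  obtain ⟨b, hb⟩ := Finset.card_eq_one.1 (hcc ▸ h1)
  rw [mfvar_A_apply, mfvar_A_apply, ← Finset.sum_sub_distrib]
  have h2 : ∀ x : V, |∑ y : V, mfvar_P ω x y f S - ∑ y : V, mfvar_P ω x y f T| ≤
      ∑ y : V, (c - (if x = a then (if y = b then c else 0) else 0) - (if x = b then (if y = a then c else 0) else 0)) := by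
    intro x
    rw [← Finset.sum_sub_distrib]
    refine (Finset.abs_sum_le_sum_abs _ _).trans (Finset.sum_le_sum (fun y _ => ?_))
    exact mfvar_pair ω hω j c f hf S T hS hT a b ha hb x y
  refine (Finset.abs_sum_le_sum_abs _ _).trans ((Finset.sum_le_sum (fun x _ => h2 x)).trans (le_of_eq ?_))
  have h3 : ∀ x : V, ∑ y : V, (c - (if x = a then (if y = b then c else 0) else 0) -
      (if x = b then (if y = a then c else 0) else 0)) =
      Fintype.card V * c - (if x = a then c else 0) - (if x = b then c else 0) := by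
    intro x
    rw [Finset.sum_sub_distrib, Finset.sum_sub_distrib, Finset.sum_const, Finset.card_univ, nsmul_eq_mul]
    congr 1
    · congr 1
      split_ifs
      · rw [Finset.sum_ite_eq' univ b]; simp
      · simp
    · split_ifs
      · rw [Finset.sum_ite_eq' univ a]; simp
      · simp
  simp only [h3]
  rw [Finset.sum_sub_distrib, Finset.sum_sub_distrib, Finset.sum_const, Finset.card_univ, nsmul_eq_mul,
    Finset.sum_ite_eq' univ a, Finset.sum_ite_eq' univ b]
  simp only [Finset.mem_univ, if_true]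
  ring

lemma mfvar_LipPow (ω : V → ℝ) (hω : ∀ v, 0 < ω v) (hn : 2 ≤ Fintype.card V) (j : ℕ) (c : ℝ) (hc : 0 ≤ c)
    (f : Finset V → ℝ) (hf : mfvar_Lip j c f) (k : ℕ) :
    mfvar_Lip j (((Fintype.card V : ℝ) ^ 2 - 2) ^ k * c) ((mfvar_A ω ^ k) f) := by
  have hn' : (2 : ℝ) ≤ Fintype.card V := by exact_mod_cast hn
  have hθ : 0 ≤ (Fintype.card V : ℝ) ^ 2 - 2 := by nlinarith
  induction k with
  | zero => simpa using hf
  | succ k ih =>
    have h1 := mfvar_LipA ω hω hn j _ (by positivity) _ ih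
    rw [← mul_assoc, ← pow_succ'] at h1
    rw [pow_succ' (mfvar_A ω), Module.End.mul_apply]
    exact h1

lemma mfvar_path (j : ℕ) (c : ℝ) (f : Finset V → ℝ) (hf : mfvar_Lip j c f) : ∀ (k : ℕ) (S T : Finset V),
    S.card = j → T.card = j → (S \ T).card = k → |f S - f T| ≤ k * c := by
  intro k
  induction k with
  | zero =>
    intro S T hS hT h
    rw [mfvar_eq_of_card S T (hS.trans hT.symm) h]
    simp
  | succ k ih =>
    intro S T hS hT h
    have hcc : (S \ T).card = (T \ S).card := Finset.card_sdiff_comm (hS.trans hT.symm)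
    obtain ⟨a, ha⟩ : (S \ T).Nonempty := by rw [← Finset.card_pos]; omega
    obtain ⟨b, hb⟩ : (T \ S).Nonempty := by rw [← Finset.card_pos]; omega
    rw [Finset.mem_sdiff] at ha hb
    have hab : a ≠ b := fun h' => hb.2 (h' ▸ ha.1)
    have hbe : b ∉ S.erase a := fun h' => hb.2 (Finset.mem_of_mem_erase h')
    have hcard : (insert b (S.erase a)).card = j := by
      rw [Finset.card_insert_of_notMem hbe, Finset.card_erase_of_mem ha.1, hS]
      have : 0 < S.card := Finset.card_pos.2 ⟨a, ha.1⟩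
      omega
    have h1 : |f S - f (insert b (S.erase a))| ≤ c := by
      apply hf S _ hS hcard
      have : S \ insert b (S.erase a) ⊆ {a} := by
        intro v hv
        rw [Finset.mem_sdiff, Finset.mem_insert, Finset.mem_erase, not_or, not_and] at hv
        rw [Finset.mem_singleton]
        by_contra h'
        exact hv.2.2 h' hv.1
      calc _ ≤ ({a} : Finset V).card := Finset.card_le_card this
        _ = 1 := Finset.card_singleton a
    have h2 : |f (insert b (S.erase a)) - f T| ≤ k * c := by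
      apply ih _ T hcard hT
      have : insert b (S.erase a) \ T = (S \ T).erase a := by
        ext v
        simp only [Finset.mem_sdiff, Finset.mem_insert, Finset.mem_erase]
        constructor
        · rintro ⟨h3 | h3, h4⟩
          · exact absurd (h3 ▸ hb.1) h4
          · exact ⟨h3.1, h3.2, h4⟩
        · rintro ⟨h3, h4, h5⟩
          exact ⟨Or.inr ⟨h3, h4⟩, h5⟩
      rw [this, Finset.card_erase_of_mem (Finset.mem_sdiff.2 ha), h]
      rfl
    have h3 : |f S - f T| ≤ |f S - f (insert b (S.erase a))| + |f (insert b (S.erase a)) - f T| :=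
      abs_sub_le _ _ _
    push_cast
    linarith

lemma mfvar_global (j : ℕ) (c : ℝ) (hc : 0 ≤ c) (f : Finset V → ℝ) (hf : mfvar_Lip j c f) (S T : Finset V)
    (hS : S.card = j) (hT : T.card = j) : |f S - f T| ≤ Fintype.card V * c := by
  refine (mfvar_path j c f hf _ S T hS hT rfl).trans ?_
  apply mul_le_mul_of_nonneg_right _ hc
  exact_mod_cast Finset.card_le_univ _

lemma mfvar_ip_bound (ω : V → ℝ) (hω : ∀ v, 0 < ω v) (j : ℕ) (c : ℝ) (hc : 0 ≤ c) (f g : Finset V → ℝ)
    (h0 : ∑ S ∈ Finset.powersetCard j univ, wset ω S * f S = 0) (hg : mfvar_Lip j c g) :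
    mfvar_ip ω j f g ≤ (∑ S ∈ Finset.powersetCard j univ, wset ω S * |f S|) * (Fintype.card V * c) := by
  rcases (Finset.powersetCard j (univ : Finset V)).eq_empty_or_nonempty with he | ⟨S0, hS0⟩
  · unfold mfvar_ip; rw [he]; simp
  · have h1 : mfvar_ip ω j f g = ∑ S ∈ Finset.powersetCard j univ, wset ω S * f S * (g S - g S0) := by
      have h2 : ∑ S ∈ Finset.powersetCard j univ, wset ω S * f S * (g S - g S0) =
        ∑ S ∈ Finset.powersetCard j univ, wset ω S * f S * g S -
        (∑ S ∈ Finset.powersetCard j univ, wset ω S * f S) * g S0 := by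
        rw [Finset.sum_mul, ← Finset.sum_sub_distrib]
        apply Finset.sum_congr rfl
        intro S _
        ring
      rw [h2, h0]
      unfold mfvar_ip
      ring
    rw [h1, Finset.sum_mul]
    apply Finset.sum_le_sum
    intro S hS
    rw [Finset.mem_powersetCard_univ] at hS hS0
    have hw := mfvar_wpos ω hω S
    calc wset ω S * f S * (g S - g S0) ≤ |wset ω S * f S * (g S - g S0)| := le_abs_self _
      _ = wset ω S * |f S| * |g S - g S0| := by rw [abs_mul, abs_mul, abs_of_pos hw]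
      _ ≤ wset ω S * |f S| * (Fintype.card V * c) := by
        apply mul_le_mul_of_nonneg_left _ (by positivity)
        exact mfvar_global j c hc g hg S S0 hS hS0

/-- the gap -/
lemma mfvar_gap (ω : V → ℝ) (hω : ∀ v, 0 < ω v) (hn : 2 ≤ Fintype.card V) (j : ℕ) (f : Finset V → ℝ)
    (h0 : ∑ S ∈ Finset.powersetCard j univ, wset ω S * f S = 0) :
    mfvar_ip ω j f (mfvar_A ω f) ≤ ((Fintype.card V : ℝ) ^ 2 - 2) * mfvar_ip ω j f f := by
  have hn' : (2 : ℝ) ≤ Fintype.card V := by exact_mod_cast hn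
  set θ : ℝ := (Fintype.card V : ℝ) ^ 2 - 2 with hθdef
  have hθ : 0 ≤ θ := by rw [hθdef]; nlinarith
  obtain ⟨c, hc, hLip⟩ : ∃ c : ℝ, 0 ≤ c ∧ mfvar_Lip j c f := by
    refine ⟨∑ S : Finset V, ∑ T : Finset V, |f S - f T|,
      Finset.sum_nonneg (fun _ _ => Finset.sum_nonneg (fun _ _ => abs_nonneg _)), ?_⟩
    intro S T _ _ _
    have h1 : |f S - f T| ≤ ∑ T : Finset V, |f S - f T| :=
      Finset.single_le_sum (f := fun T => |f S - f T|) (fun _ _ => abs_nonneg _) (Finset.mem_univ T)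
    refine h1.trans ?_
    exact Finset.single_le_sum (f := fun S => ∑ T : Finset V, |f S - f T|)
      (fun _ _ => Finset.sum_nonneg (fun _ _ => abs_nonneg _)) (Finset.mem_univ S)
  set C : ℝ := (∑ S ∈ Finset.powersetCard j univ, wset ω S * |f S|) * (Fintype.card V * c) with hC
  have hC0 : 0 ≤ C := by
    rw [hC]
    apply mul_nonneg _ (by positivity)
    apply Finset.sum_nonneg
    intro S _
    have := mfvar_wpos ω hω S
    positivity
  have hup : ∀ k : ℕ, mfvar_ip ω j f ((mfvar_A ω ^ k) f) ≤ C * θ ^ k := by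
    intro k
    have h1 := mfvar_ip_bound ω hω j _ (by positivity) f _ h0 (mfvar_LipPow ω hω hn j c hc f hLip k)
    refine h1.trans (le_of_eq ?_)
    rw [hC]
    ring
  have ha0 : mfvar_ip ω j f f = mfvar_ip ω j f ((mfvar_A ω ^ 0) f) := by
    rw [pow_zero, Module.End.one_apply]
  have ha1 : mfvar_ip ω j f (mfvar_A ω f) = mfvar_ip ω j f ((mfvar_A ω ^ 1) f) := by
    rw [pow_one]
  rw [ha0, ha1]
  obtain ⟨a, ha⟩ : ∃ a : ℕ → ℝ, ∀ k, a k = mfvar_ip ω j f ((mfvar_A ω ^ k) f) := ⟨_, fun _ => rfl⟩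
  have hlog : ∀ k, a (k + 1) ^ 2 ≤ a k * a (k + 2) := fun k => by
    rw [ha, ha, ha]; exact mfvar_logconv ω hω j k f
  have hnn : ∀ k, 0 ≤ a k := fun k => by rw [ha]; exact mfvar_pow_nonneg ω hω j k f
  have hup' : ∀ k, a k ≤ C * θ ^ k := fun k => by rw [ha]; exact hup k
  rw [← ha, ← ha]
  rcases (hnn 0).eq_or_lt with h | h
  · have h1 := hlog 0
    rw [← h] at h1
    have h2 : a 1 = 0 := by
      have : a (0 + 1) ^ 2 ≤ 0 := by linarith
      have h3 : a (0 + 1) ^ 2 = 0 := le_antisymm this (sq_nonneg _)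
      exact pow_eq_zero_iff (two_ne_zero) |>.1 h3
    rw [← h, h2]; simp
  · by_contra hcon
    push Not at hcon
    obtain ⟨q, hq⟩ : ∃ q, q = a 1 / a 0 := ⟨_, rfl⟩
    have hq1 : q * a 0 = a 1 := by rw [hq]; field_simp
    have hqθ : θ < q := by rw [hq, lt_div_iff₀ h]; exact hcon
    have hq0 : 0 < q := lt_of_le_of_lt hθ hqθ
    have hind : ∀ k, 0 < a k ∧ q * a k ≤ a (k + 1) := by
      intro k
      induction k with
      | zero => exact ⟨h, hq1.le⟩
      | succ k ih =>
        have h1 : 0 < a (k + 1) := lt_of_lt_of_le (mul_pos hq0 ih.1) ih.2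
        refine ⟨h1, ?_⟩
        have h2 := hlog k
        have h3 : q * a (k + 1) * a k ≤ a (k + 1 + 1) * a k := by nlinarith
        exact le_of_mul_le_mul_right h3 ih.1
    have hlow : ∀ k, q ^ k * a 0 ≤ a k := by
      intro k
      induction k with
      | zero => simp
      | succ k ih =>
        have h2 := (hind k).2
        calc q ^ (k + 1) * a 0 = q * (q ^ k * a 0) := by ring
          _ ≤ q * a k := mul_le_mul_of_nonneg_left ih hq0.le
          _ ≤ a (k + 1) := h2
    obtain ⟨k, hk⟩ := exists_pow_lt_of_lt_one (show 0 < a 0 / (C + 1) by positivity)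
      (show θ / q < 1 by rw [div_lt_one hq0]; exact hqθ)
    rw [div_pow, div_lt_div_iff₀ (by positivity) (by positivity)] at hk
    have h5 := hlow k
    have h6 := hup' k
    have h7 : C * θ ^ k ≤ θ ^ k * (C + 1) := by
      have : 0 ≤ θ ^ k := by positivity
      nlinarith
    nlinarith

/-- Dirichlet form of one pair -/
lemma mfvar_dir1 (ω : V → ℝ) (hω : ∀ v, 0 < ω v) (j : ℕ) (x y : V) (f : Finset V → ℝ) :
    mfvar_ip ω j f f - mfvar_ip ω j f (mfvar_P ω x y f) = ∑ S ∈ Finset.powersetCard j univ,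
      (1 / 2) * ((wset ω S * wset ω (mfvar_sg x y S)) / (wset ω S + wset ω (mfvar_sg x y S)) *
        (f S - f (mfvar_sg x y S)) ^ 2) := by
  have h1 : mfvar_ip ω j f f = ∑ S ∈ Finset.powersetCard j univ, (1 / 2) *
      (wset ω S * f S * f S + wset ω (mfvar_sg x y S) * f (mfvar_sg x y S) * f (mfvar_sg x y S)) := by
    have h2 := mfvar_reindex x y j (fun S => wset ω S * f S * f S)
    rw [← Finset.mul_sum, Finset.sum_add_distrib, h2]
    unfold mfvar_ip
    ring
  rw [h1, mfvar_ip_P ω hω, ← Finset.sum_sub_distrib]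
  apply Finset.sum_congr rfl
  intro S _
  have hw1 := mfvar_wpos ω hω S
  have hw2 := mfvar_wpos ω hω (mfvar_sg x y S)
  field_simp
  ring

lemma mfvar_dir (ω : V → ℝ) (hω : ∀ v, 0 < ω v) (j : ℕ) (f : Finset V → ℝ) :
    (Fintype.card V : ℝ) ^ 2 * mfvar_ip ω j f f - mfvar_ip ω j f (mfvar_A ω f) =
    ∑ S ∈ Finset.powersetCard j univ, ∑ x ∈ S, ∑ y ∈ Sᶜ,
      (wset ω S * wset ω (insert y (S.erase x)) / (wset ω S + wset ω (insert y (S.erase x)))) *
        (f S - f (insert y (S.erase x))) ^ 2 := by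
  have h1 : (Fintype.card V : ℝ) ^ 2 * mfvar_ip ω j f f - mfvar_ip ω j f (mfvar_A ω f) =
      ∑ x : V, ∑ y : V, (mfvar_ip ω j f f - mfvar_ip ω j f (mfvar_P ω x y f)) := by
    rw [mfvar_ip_A]
    simp only [Finset.sum_sub_distrib, Finset.sum_const, Finset.card_univ, nsmul_eq_mul]
    ring
  rw [h1]
  simp only [mfvar_dir1 ω hω]
  have h2 : ∑ x : V, ∑ y : V, ∑ S ∈ Finset.powersetCard j univ,
      (1 / 2) * ((wset ω S * wset ω (mfvar_sg x y S)) / (wset ω S + wset ω (mfvar_sg x y S)) *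
        (f S - f (mfvar_sg x y S)) ^ 2) = ∑ S ∈ Finset.powersetCard j univ, ∑ x : V, ∑ y : V,
      (1 / 2) * ((wset ω S * wset ω (mfvar_sg x y S)) / (wset ω S + wset ω (mfvar_sg x y S)) *
        (f S - f (mfvar_sg x y S)) ^ 2) := by
    have h3 : ∀ x : V, ∑ y : V, ∑ S ∈ Finset.powersetCard j univ,
      (1 / 2) * ((wset ω S * wset ω (mfvar_sg x y S)) / (wset ω S + wset ω (mfvar_sg x y S)) *
        (f S - f (mfvar_sg x y S)) ^ 2) = ∑ S ∈ Finset.powersetCard j univ, ∑ y : V,
      (1 / 2) * ((wset ω S * wset ω (mfvar_sg x y S)) / (wset ω S + wset ω (mfvar_sg x y S)) *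
        (f S - f (mfvar_sg x y S)) ^ 2) := fun x => Finset.sum_comm
    simp only [h3]
    exact Finset.sum_comm
  rw [h2]
  apply Finset.sum_congr rfl
  intro S _
  obtain ⟨F, hF⟩ : ∃ F : V → V → ℝ, ∀ x y, F x y =
      (wset ω S * wset ω (mfvar_sg x y S)) / (wset ω S + wset ω (mfvar_sg x y S)) *
        (f S - f (mfvar_sg x y S)) ^ 2 := ⟨_, fun _ _ => rfl⟩
  have hF0 : ∀ x y, (x ∈ S ↔ y ∈ S) → F x y = 0 := by
    intro x y h
    rw [hF, mfvar_same x y S h, sub_self]; simp
  have hFc : ∀ x y, F x y = F y x := by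
    intro x y
    rw [hF, hF, mfvar_comm x y]
  have hFm : ∀ x ∈ S, ∀ y ∈ Sᶜ, F x y =
      (wset ω S * wset ω (insert y (S.erase x)) / (wset ω S + wset ω (insert y (S.erase x)))) *
        (f S - f (insert y (S.erase x))) ^ 2 := by
    intro x hx y hy
    rw [hF, mfvar_diff x y S hx (Finset.mem_compl.1 hy)]
  have h4 : ∑ x : V, ∑ y : V, (1 / 2) * ((wset ω S * wset ω (mfvar_sg x y S)) / (wset ω S + wset ω (mfvar_sg x y S)) *
        (f S - f (mfvar_sg x y S)) ^ 2) = (1 / 2) * ∑ x : V, ∑ y : V, F x y := by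
    rw [Finset.mul_sum]
    apply Finset.sum_congr rfl
    intro x _
    rw [Finset.mul_sum]
    apply Finset.sum_congr rfl
    intro y _
    rw [hF]
  rw [h4]
  have h5 : ∑ x ∈ S, ∑ y ∈ Sᶜ,
      (wset ω S * wset ω (insert y (S.erase x)) / (wset ω S + wset ω (insert y (S.erase x)))) *
        (f S - f (insert y (S.erase x))) ^ 2 = ∑ x ∈ S, ∑ y ∈ Sᶜ, F x y := by
    apply Finset.sum_congr rfl
    intro x hx
    apply Finset.sum_congr rfl
    intro y hy
    rw [hFm x hx y hy]
  rw [h5]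
  have h6 : ∑ x : V, ∑ y : V, F x y = ∑ x ∈ S, ∑ y ∈ Sᶜ, F x y + ∑ x ∈ Sᶜ, ∑ y ∈ S, F x y := by
    rw [← Finset.sum_add_sum_compl S]
    congr 1
    · apply Finset.sum_congr rfl
      intro x hx
      rw [← Finset.sum_add_sum_compl S]
      have : ∑ y ∈ S, F x y = 0 := Finset.sum_eq_zero (fun y hy => hF0 x y (by simp [hx, hy]))
      rw [this, zero_add]
    · apply Finset.sum_congr rfl
      intro x hx
      rw [← Finset.sum_add_sum_compl S]
      have : ∑ y ∈ Sᶜ, F x y = 0 := Finset.sum_eq_zero (fun y hy => hF0 x y (by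
        rw [Finset.mem_compl] at hx hy
        simp [hx, hy]))
      rw [this, add_zero]
  have h7 : ∑ x ∈ Sᶜ, ∑ y ∈ S, F x y = ∑ x ∈ S, ∑ y ∈ Sᶜ, F x y := by
    rw [Finset.sum_comm]
    apply Finset.sum_congr rfl
    intro x _
    apply Finset.sum_congr rfl
    intro y _
    exact hFc y x
  rw [h6, h7]
  ring

end mfvar

theorem st_MFVAR : ST_MFVAR := by
  intro V _ _ ω j f hω
  obtain ⟨Z, hZ⟩ : ∃ Z, Z = ∑ S ∈ Finset.powersetCard j (univ : Finset V), wset ω S := ⟨_, rfl⟩
  have hw := mfvar_wpos ω hω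
  have hZ0 : 0 ≤ Z := by rw [hZ]; exact Finset.sum_nonneg (fun S _ => (hw S).le)
  have hRHS0 : 0 ≤ ∑ S ∈ Finset.powersetCard j univ, ∑ x ∈ S, ∑ y ∈ Sᶜ,
      (wset ω S * wset ω (insert y (S.erase x)) / (wset ω S + wset ω (insert y (S.erase x)))) *
        (f S - f (insert y (S.erase x))) ^ 2 := by
    apply Finset.sum_nonneg
    intro S _
    apply Finset.sum_nonneg
    intro x _
    apply Finset.sum_nonneg
    intro y _
    have h1 := hw S
    have h2 := hw (insert y (S.erase x))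
    positivity
  rw [← hZ]
  rcases Nat.lt_or_ge (Fintype.card V) 2 with hn | hn
  · have hsub : Subsingleton V := Fintype.card_le_one_iff_subsingleton.1 (by omega)
    have : ∑ S ∈ Finset.powersetCard j (univ : Finset V), ∑ T ∈ Finset.powersetCard j (univ : Finset V),
      wset ω S * wset ω T * (f S - f T) ^ 2 = 0 := by
      apply Finset.sum_eq_zero
      intro S hS
      apply Finset.sum_eq_zero
      intro T hT
      rw [Finset.mem_powersetCard_univ] at hS hT
      have hST : S = T := by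
        apply mfvar_eq_of_card S T (hS.trans hT.symm)
        rw [Finset.card_eq_zero, Finset.sdiff_eq_empty_iff_subset]
        intro a ha
        have : 0 < T.card := by rw [hT, ← hS]; exact Finset.card_pos.2 ⟨a, ha⟩
        obtain ⟨b, hb⟩ := Finset.card_pos.1 this
        rwa [Subsingleton.elim a b]
      rw [hST]; simp
    rw [this]
    positivity
  · rcases (Finset.powersetCard j (univ : Finset V)).eq_empty_or_nonempty with he | hne
    · rw [he] at hZ ⊢
      simp
    · have hZpos : 0 < Z := by rw [hZ]; exact Finset.sum_pos (fun S _ => hw S) hne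
      obtain ⟨μ, hμ⟩ : ∃ μ, μ = (∑ S ∈ Finset.powersetCard j (univ : Finset V), wset ω S * f S) / Z := ⟨_, rfl⟩
      obtain ⟨g, hg⟩ : ∃ g : Finset V → ℝ, ∀ S, g S = f S - μ := ⟨_, fun _ => rfl⟩
      have hg0 : ∑ S ∈ Finset.powersetCard j univ, wset ω S * g S = 0 := by
        have : ∑ S ∈ Finset.powersetCard j univ, wset ω S * g S =
          ∑ S ∈ Finset.powersetCard j (univ : Finset V), wset ω S * f S - Z * μ := by
          rw [hZ, Finset.sum_mul, ← Finset.sum_sub_distrib]
          apply Finset.sum_congr rfl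
          intro S _
          rw [hg]; ring
        rw [this, hμ]
        field_simp
        ring
      have hgap := mfvar_gap ω hω hn j g hg0
      have hdir := mfvar_dir ω hω j g
      have hdir2 : ∑ S ∈ Finset.powersetCard j univ, ∑ x ∈ S, ∑ y ∈ Sᶜ,
        (wset ω S * wset ω (insert y (S.erase x)) / (wset ω S + wset ω (insert y (S.erase x)))) *
          (g S - g (insert y (S.erase x))) ^ 2 = ∑ S ∈ Finset.powersetCard j univ, ∑ x ∈ S, ∑ y ∈ Sᶜ,
        (wset ω S * wset ω (insert y (S.erase x)) / (wset ω S + wset ω (insert y (S.erase x)))) *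
          (f S - f (insert y (S.erase x))) ^ 2 := by
        apply Finset.sum_congr rfl
        intro S _
        apply Finset.sum_congr rfl
        intro x _
        apply Finset.sum_congr rfl
        intro y _
        rw [hg, hg]
        ring
      rw [hdir2] at hdir
      have hL : ∑ S ∈ Finset.powersetCard j (univ : Finset V), ∑ T ∈ Finset.powersetCard j (univ : Finset V),
        wset ω S * wset ω T * (f S - f T) ^ 2 = Z * (2 * mfvar_ip ω j g g) := by
        have h1 : ∀ S : Finset V, ∑ T ∈ Finset.powersetCard j (univ : Finset V),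
            wset ω S * wset ω T * (f S - f T) ^ 2 = wset ω S * g S * g S * Z + wset ω S * mfvar_ip ω j g g := by
          intro S
          have h2 : ∑ T ∈ Finset.powersetCard j (univ : Finset V),
            wset ω S * wset ω T * (f S - f T) ^ 2 =
            wset ω S * g S * g S * Z + wset ω S * mfvar_ip ω j g g -
              2 * wset ω S * g S * ∑ T ∈ Finset.powersetCard j (univ : Finset V), wset ω T * g T := by
            rw [hZ]
            unfold mfvar_ip
            rw [Finset.mul_sum, Finset.mul_sum, Finset.mul_sum, ← Finset.sum_add_distrib, ← Finset.sum_sub_distrib]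
            apply Finset.sum_congr rfl
            intro T _
            rw [hg, hg]
            ring
          rw [h2, hg0]
          ring
        simp only [h1]
        rw [Finset.sum_add_distrib, ← Finset.sum_mul, ← Finset.sum_mul, ← hZ]
        unfold mfvar_ip
        ring
      rw [hL]
      apply mul_le_mul_of_nonneg_left _ hZ0
      rw [← hdir]
      linarith

end Pool.Agent.Helper98.EX
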