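import Pool.Agent.Helper98.EY.StmtsC

/-!
# TBN: numeric two-body recursion
-/

namespace Pool.Agent.Helper98.EX

open Finset

/-- accumulated occupation of the one-body walk started at distance zero -/
noncomputable def tbnS (e : ℝ) (q : ℕ) (ρ μ : ℕ → ℝ) : ℕ → ℕ → ℝ
  | 0, _ => 0
  | i + 1, h => tbnS e q ρ μ i h + e * (
      (if h + 1 < q then ρ h * (tbnS e q ρ μ i (h + 1) - tbnS e q ρ μ i h) else 0) +
      (if 0 < h then μ h * (tbnS e q ρ μ i (h - 1) - tbnS e q ρ μ i h) else 0)) +
      (if h = 0 then e else 0)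

theorem tbn_nonneg (e : ℝ) (q : ℕ) (ρ μ : ℕ → ℝ) (he : 0 ≤ e) (he' : e ≤ 1 / 4)
    (h1 : ∀ h, h + 1 < q → 0 ≤ ρ h ∧ ρ h ≤ 1) (h2 : ∀ h, 0 < h → h < q → 0 ≤ μ h ∧ μ h ≤ 1)
    (i : ℕ) : ∀ h, h < q → 0 ≤ tbnS e q ρ μ i h := by
  induction i with
  | zero => intro h _; simp [tbnS]
  | succ i ih =>
    intro h hh
    have key : ∃ a s1 b s2 : ℝ, 0 ≤ a ∧ a ≤ 1 ∧ 0 ≤ b ∧ b ≤ 1 ∧ 0 ≤ s1 ∧ 0 ≤ s2 ∧
        (if h + 1 < q then ρ h * (tbnS e q ρ μ i (h + 1) - tbnS e q ρ μ i h) else 0) =
          a * (s1 - tbnS e q ρ μ i h) ∧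
        (if 0 < h then μ h * (tbnS e q ρ μ i (h - 1) - tbnS e q ρ μ i h) else 0) =
          b * (s2 - tbnS e q ρ μ i h) := by
      refine ⟨if h + 1 < q then ρ h else 0, if h + 1 < q then tbnS e q ρ μ i (h + 1) else 0,
        if 0 < h then μ h else 0, if 0 < h then tbnS e q ρ μ i (h - 1) else 0, ?_, ?_, ?_, ?_, ?_, ?_, ?_, ?_⟩
      · split_ifs with hc
        · exact (h1 h hc).1
        · exact le_rfl
      · split_ifs with hc
        · exact (h1 h hc).2
        · exact zero_le_one
      · split_ifs with hc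
        · exact (h2 h hc hh).1
        · exact le_rfl
      · split_ifs with hc
        · exact (h2 h hc hh).2
        · exact zero_le_one
      · split_ifs with hc
        · exact ih _ hc
        · exact le_rfl
      · split_ifs with hc
        · exact ih _ (by omega)
        · exact le_rfl
      · split_ifs <;> ring
      · split_ifs <;> ring
    obtain ⟨a, s1, b, s2, ha0, ha1, hb0, hb1, hs1, hs2, e1, e2⟩ := key
    have h0 := ih h hh
    have h3 : 0 ≤ (if h = 0 then e else 0) := by split_ifs <;> linarith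
    show 0 ≤ tbnS e q ρ μ i h + e * (
      (if h + 1 < q then ρ h * (tbnS e q ρ μ i (h + 1) - tbnS e q ρ μ i h) else 0) +
      (if 0 < h then μ h * (tbnS e q ρ μ i (h - 1) - tbnS e q ρ μ i h) else 0)) +
      (if h = 0 then e else 0)
    rw [e1, e2]
    have h4 : e * (a + b) ≤ 1 := by
      have := mul_le_mul he' (by linarith : a + b ≤ 2) (by linarith) (by norm_num)
      linarith
    have h5 : 0 ≤ (1 - e * (a + b)) * tbnS e q ρ μ i h := mul_nonneg (by linarith) h0
    have h6 : 0 ≤ e * (a * s1 + b * s2) :=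
      mul_nonneg he (add_nonneg (mul_nonneg ha0 hs1) (mul_nonneg hb0 hs2))
    linarith [h5, h6, h3]

theorem tbn_mass (e : ℝ) (q : ℕ) (ρ μ ϖ : ℕ → ℝ) (hq : 1 ≤ q) (hϖ0 : ϖ 0 = 1)
    (hϖ : ∀ h, h < q → 0 < ϖ h) (hrev : ∀ h, h + 1 < q → ϖ (h + 1) * ρ h = ϖ h * μ (h + 1))
    (i : ℕ) : ∑ h ∈ range q, tbnS e q ρ μ i h / ϖ h = i * e := by
  induction i with
  | zero => simp [tbnS]
  | succ i ih =>
    set S : ℕ → ℝ := fun h => tbnS e q ρ μ i h with hS
    have hstep : ∀ h, tbnS e q ρ μ (i + 1) h / ϖ h = S h / ϖ h + e * (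
        (if h + 1 < q then ρ h * (S (h + 1) - S h) else 0) / ϖ h +
        (if 0 < h then μ h * (S (h - 1) - S h) else 0) / ϖ h) +
        (if h = 0 then e else 0) / ϖ h := by
      intro h
      show (S h + e * (
        (if h + 1 < q then ρ h * (S (h + 1) - S h) else 0) +
        (if 0 < h then μ h * (S (h - 1) - S h) else 0)) +
        (if h = 0 then e else 0)) / ϖ h = _
      ring
    rw [Finset.sum_congr rfl (fun h _ => hstep h), Finset.sum_add_distrib, Finset.sum_add_distrib,
      ← Finset.mul_sum, Finset.sum_add_distrib]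
    obtain ⟨p, rfl⟩ : ∃ p, q = p + 1 := ⟨q - 1, by omega⟩
    have ha : ∑ h ∈ range (p + 1), (if h + 1 < p + 1 then ρ h * (S (h + 1) - S h) else 0) / ϖ h =
        ∑ h ∈ range p, ρ h * (S (h + 1) - S h) / ϖ h := by
      rw [Finset.sum_range_succ]
      simp only [lt_irrefl, if_false, zero_div, add_zero]
      refine Finset.sum_congr rfl (fun h hh => ?_)
      rw [if_pos (by have := Finset.mem_range.mp hh; omega)]
    have hb : ∑ h ∈ range (p + 1), (if 0 < h then μ h * (S (h - 1) - S h) else 0) / ϖ h =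
        ∑ h ∈ range p, μ (h + 1) * (S h - S (h + 1)) / ϖ (h + 1) := by
      rw [Finset.sum_range_succ']
      simp only [lt_irrefl, if_false, zero_div, add_zero, Nat.succ_pos, if_true,
        Nat.add_sub_cancel]
    have hab : ∑ h ∈ range p, ρ h * (S (h + 1) - S h) / ϖ h +
        ∑ h ∈ range p, μ (h + 1) * (S h - S (h + 1)) / ϖ (h + 1) = 0 := by
      rw [← Finset.sum_add_distrib]
      refine Finset.sum_eq_zero (fun h hh => ?_)
      have hh' := Finset.mem_range.mp hh
      have p1 := hϖ h (by omega)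
      have p2 := hϖ (h + 1) (by omega)
      have hr := hrev h (by omega)
      have : μ (h + 1) * (S h - S (h + 1)) / ϖ (h + 1) = -(ρ h * (S (h + 1) - S h) / ϖ h) := by
        rw [div_eq_iff p2.ne']
        have : -(ρ h * (S (h + 1) - S h) / ϖ h) * ϖ (h + 1) =
            (ϖ (h + 1) * ρ h) * (S h - S (h + 1)) / ϖ h := by ring
        rw [this, hr, eq_div_iff p1.ne']
        ring
      rw [this]
      ring
    have hc : ∑ h ∈ range (p + 1), (if h = 0 then e else 0) / ϖ h = e := by
      rw [Finset.sum_eq_single 0]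
      · simp [hϖ0]
      · intro h _ hne
        simp [hne]
      · intro hn
        exact absurd (Finset.mem_range.mpr (by omega)) hn
    rw [ha, hb, hab, hc]
    have : ∑ h ∈ range (p + 1), S h / ϖ h = i * e := ih
    rw [this]
    push_cast
    ring

theorem tbn_bound (e : ℝ) (q : ℕ) (ρ μ ϖ : ℕ → ℝ) (he : 0 ≤ e) (he' : e ≤ 1 / 4)
    (h1 : ∀ h, h + 1 < q → 0 ≤ ρ h ∧ ρ h ≤ 1) (h2 : ∀ h, 0 < h → h < q → 0 ≤ μ h ∧ μ h ≤ 1)
    (hϖ0 : ϖ 0 = 1) (hϖ : ∀ h, h < q → 0 < ϖ h)
    (hrev : ∀ h, h + 1 < q → ϖ (h + 1) * ρ h = ϖ h * μ (h + 1))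
    (i h : ℕ) (hh : h < q) : tbnS e q ρ μ i h ≤ i * e * ϖ h := by
  have hm := tbn_mass e q ρ μ ϖ (by omega) hϖ0 hϖ hrev i
  have h3 : tbnS e q ρ μ i h / ϖ h ≤ ∑ h ∈ range q, tbnS e q ρ μ i h / ϖ h :=
    Finset.single_le_sum (f := fun h => tbnS e q ρ μ i h / ϖ h)
      (fun j hj => div_nonneg (tbn_nonneg e q ρ μ he he' h1 h2 i j (Finset.mem_range.mp hj))
        (hϖ j (Finset.mem_range.mp hj)).le) (Finset.mem_range.mpr hh)
  rw [hm, div_le_iff₀ (hϖ h hh)] at h3
  exact h3

theorem tbn_arith {e U k : ℝ} (x a : Fin 4 → ℝ) (he : 0 ≤ e) (he' : e ≤ 1 / 4)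
    (ha : ∀ j, 0 ≤ a j) (hk : 0 ≤ k) (hs : a 0 + a 1 + a 2 + a 3 + k ≤ 4)
    (hU : 0 ≤ U) (hU' : U ≤ 1) (hx : ∀ j, 0 ≤ x j) (hx' : ∀ j, x j ≤ 1) :
    0 ≤ U + e * (a 0 * (x 0 - U) + a 1 * (x 1 - U) + a 2 * (x 2 - U) + a 3 * (x 3 - U) - k * U) ∧
    U + e * (a 0 * (x 0 - U) + a 1 * (x 1 - U) + a 2 * (x 2 - U) + a 3 * (x 3 - U) - k * U) ≤ 1 := by
  have h1 : e * (a 0 + a 1 + a 2 + a 3 + k) ≤ 1 := by
    have := mul_le_mul he' hs (by linarith [ha 0, ha 1, ha 2, ha 3]) (by norm_num)
    linarith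
  have h2 : 0 ≤ (1 - e * (a 0 + a 1 + a 2 + a 3 + k)) * U := mul_nonneg (by linarith) hU
  have h3 : 0 ≤ e * (a 0 * x 0 + a 1 * x 1 + a 2 * x 2 + a 3 * x 3) :=
    mul_nonneg he (by
      linarith [mul_nonneg (ha 0) (hx 0), mul_nonneg (ha 1) (hx 1), mul_nonneg (ha 2) (hx 2),
        mul_nonneg (ha 3) (hx 3)])
  have h4 : 0 ≤ e * (a 0 * (1 - x 0) + a 1 * (1 - x 1) + a 2 * (1 - x 2) + a 3 * (1 - x 3) + k * U) :=
    mul_nonneg he (by
      linarith [mul_nonneg (ha 0) (sub_nonneg.mpr (hx' 0)), mul_nonneg (ha 1) (sub_nonneg.mpr (hx' 1)),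
        mul_nonneg (ha 2) (sub_nonneg.mpr (hx' 2)), mul_nonneg (ha 3) (sub_nonneg.mpr (hx' 3)),
        mul_nonneg hk hU])
  have h5 : 0 ≤ (1 - e * (a 0 + a 1 + a 2 + a 3)) * (1 - U) := by
    refine mul_nonneg ?_ (by linarith)
    have : 0 ≤ e * k := mul_nonneg he hk
    linarith [h1]
  constructor
  · linarith [h2, h3]
  · linarith [h4, h5]

theorem tbn_arith2 {e U k S s0 s1 δ : ℝ} (x a : Fin 4 → ℝ) (he : 0 ≤ e) (he' : e ≤ 1 / 4)
    (ha : ∀ j, 0 ≤ a j) (hs : a 0 + a 1 + a 2 + a 3 ≤ 4) (hk : 0 ≤ k)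
    (hkU : k * U ≤ δ) (h0 : 1 - U ≤ S) (hx0 : 1 - x 0 ≤ s0) (hx1 : 1 - x 1 ≤ s1)
    (hx2 : 1 - x 2 ≤ S) (hx3 : 1 - x 3 ≤ S) :
    1 - (U + e * (a 0 * (x 0 - U) + a 1 * (x 1 - U) + a 2 * (x 2 - U) + a 3 * (x 3 - U) - k * U)) ≤
      S + e * (a 0 * (s0 - S) + a 1 * (s1 - S)) + e * δ := by
  have h1 : e * (a 0 + a 1 + a 2 + a 3) ≤ 1 := by
    have := mul_le_mul he' hs (by linarith [ha 0, ha 1, ha 2, ha 3]) (by norm_num)
    linarith
  have h2 : 0 ≤ (1 - e * (a 0 + a 1 + a 2 + a 3)) * (S - (1 - U)) :=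
    mul_nonneg (by linarith) (by linarith)
  have h3 : 0 ≤ e * (a 0 * (s0 - (1 - x 0)) + a 1 * (s1 - (1 - x 1)) + a 2 * (S - (1 - x 2)) +
      a 3 * (S - (1 - x 3))) :=
    mul_nonneg he (by
      linarith [mul_nonneg (ha 0) (sub_nonneg.mpr hx0), mul_nonneg (ha 1) (sub_nonneg.mpr hx1),
        mul_nonneg (ha 2) (sub_nonneg.mpr hx2), mul_nonneg (ha 3) (sub_nonneg.mpr hx3)])
  have h4 : 0 ≤ e * (δ - k * U) := mul_nonneg he (by linarith)
  linarith [h2, h3, h4]

theorem st_TBN : ST_TBN := by
  intro N r l b q hA hP hq hqb hbN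
  have hN : 2 ≤ N := by omega
  have hNr : (2 : ℝ) ≤ N := by exact_mod_cast hN
  set e : ℝ := 1 / (2 * N) with hedef
  have he : 0 ≤ e := by positivity
  have he' : e ≤ 1 / 4 := by
    rw [hedef]
    exact one_div_le_one_div_of_le (by norm_num) (by linarith)
  -- rates of the two walks
  set ρ : ℕ → ℝ := fun h => r (b - 1 - h) with hρ
  set μ : ℕ → ℝ := fun h => l (b - h) with hμ
  set ρ' : ℕ → ℝ := fun g => r (b + g + 1) with hρ'
  set μ' : ℕ → ℝ := fun g => l (b + g) with hμ'
  have hρ1 : ∀ h, h + 1 < q → 0 ≤ ρ h ∧ ρ h ≤ 1 := fun h hh => by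
    have := hA (b - 1 - h) (by omega) (by omega)
    exact ⟨this.1.le, this.2.1⟩
  have hμ1 : ∀ h, 0 < h → h < q → 0 ≤ μ h ∧ μ h ≤ 1 := fun h h0 hh => by
    have := hA (b - h) (by omega) (by omega)
    exact ⟨this.2.2.1, this.2.2.2⟩
  have hρ1' : ∀ h, h + 1 < q → 0 ≤ ρ' h ∧ ρ' h ≤ 1 := fun h hh => by
    have := hA (b + h + 1) (by omega) (by omega)
    exact ⟨this.1.le, this.2.1⟩
  have hμ1' : ∀ h, 0 < h → h < q → 0 ≤ μ' h ∧ μ' h ≤ 1 := fun h h0 hh => by
    have := hA (b + h) (by omega) (by omega)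
    exact ⟨this.2.2.1, this.2.2.2⟩
  have hRRpos : ∀ z x, x < N → 0 < RR r l z x := by
    intro z x hx
    refine Finset.prod_pos (fun c hc => ?_)
    have hc' := Finset.mem_Ioc.mp hc
    exact div_pos (hP c (by omega) (by omega)) (hA c (by omega) (by omega)).1
  -- main induction
  have main : ∀ i h g, h < q → g < q →
      0 ≤ tb N r l b q i h g ∧ tb N r l b q i h g ≤ 1 ∧
      1 - tb N r l b q i h g ≤ tbnS e q ρ μ i h ∧
      1 - tb N r l b q i h g ≤ tbnS e q ρ' μ' i g := by
    intro i
    induction i with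
    | zero => intro h g _ _; simp [tb, tbnS]
    | succ i ih =>
      intro h g hh hg
      obtain ⟨u0, u1, u2, u3⟩ := ih h g hh hg
      set U := tb N r l b q i h g with hU
      -- coefficients
      set a : Fin 4 → ℝ := ![if h + 1 < q then ρ h else 0, if 0 < h then μ h else 0,
        if g + 1 < q then ρ' g else 0, if 0 < g then μ' g else 0] with ha
      set x : Fin 4 → ℝ := ![if h + 1 < q then tb N r l b q i (h + 1) g else U,
        if 0 < h then tb N r l b q i (h - 1) g else U,
        if g + 1 < q then tb N r l b q i h (g + 1) else U,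
        if 0 < g then tb N r l b q i h (g - 1) else U] with hx
      set k : ℝ := if h = 0 ∧ g = 0 then l b else 0 with hk
      have hlb := hA b (by omega) (by omega)
      have a0 : 0 ≤ a 0 ∧ a 0 ≤ 1 := by
        simp only [ha, Matrix.cons_val_zero]
        split_ifs with hc
        · exact hρ1 h hc
        · exact ⟨le_rfl, zero_le_one⟩
      have a1 : 0 ≤ a 1 ∧ a 1 ≤ 1 := by
        simp only [ha, Matrix.cons_val_one, Matrix.cons_val_zero]
        split_ifs with hc
        · exact hμ1 h hc hh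
        · exact ⟨le_rfl, zero_le_one⟩
      have a2 : 0 ≤ a 2 ∧ a 2 ≤ 1 := by
        show 0 ≤ (if g + 1 < q then ρ' g else 0) ∧ (if g + 1 < q then ρ' g else 0) ≤ 1
        split_ifs with hc
        · exact hρ1' g hc
        · exact ⟨le_rfl, zero_le_one⟩
      have a3 : 0 ≤ a 3 ∧ a 3 ≤ 1 := by
        show 0 ≤ (if 0 < g then μ' g else 0) ∧ (if 0 < g then μ' g else 0) ≤ 1
        split_ifs with hc
        · exact hμ1' g hc hg
        · exact ⟨le_rfl, zero_le_one⟩
      have hk0 : 0 ≤ k := by
        rw [hk]; split_ifs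
        · exact hlb.2.2.1
        · exact le_rfl
      have hsum : a 0 + a 1 + a 2 + a 3 + k ≤ 4 := by
        by_cases hc : h = 0 ∧ g = 0
        · have e1 : a 1 = 0 := by
            show (if 0 < h then μ h else 0) = 0
            rw [if_neg (by omega)]
          have e3 : a 3 = 0 := by
            show (if 0 < g then μ' g else 0) = 0
            rw [if_neg (by omega)]
          have ek : k = l b := by rw [hk, if_pos hc]
          rw [e1, e3, ek]
          linarith [a0.2, a2.2, hlb.2.2.2]
        · have ek : k = 0 := by rw [hk, if_neg hc]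
          rw [ek]
          linarith [a0.2, a1.2, a2.2, a3.2]
      have x0 : 0 ≤ x 0 ∧ x 0 ≤ 1 ∧ 1 - x 0 ≤ (if h + 1 < q then tbnS e q ρ μ i (h + 1) else
          tbnS e q ρ μ i h) ∧ 1 - x 0 ≤ tbnS e q ρ' μ' i g := by
        show 0 ≤ (if h + 1 < q then tb N r l b q i (h + 1) g else U) ∧
          (if h + 1 < q then tb N r l b q i (h + 1) g else U) ≤ 1 ∧
          1 - (if h + 1 < q then tb N r l b q i (h + 1) g else U) ≤ _ ∧
          1 - (if h + 1 < q then tb N r l b q i (h + 1) g else U) ≤ _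
        split_ifs with hc
        · exact ih (h + 1) g hc hg
        · exact ⟨u0, u1, u2, u3⟩
      have x1 : 0 ≤ x 1 ∧ x 1 ≤ 1 ∧ 1 - x 1 ≤ (if 0 < h then tbnS e q ρ μ i (h - 1) else
          tbnS e q ρ μ i h) ∧ 1 - x 1 ≤ tbnS e q ρ' μ' i g := by
        show 0 ≤ (if 0 < h then tb N r l b q i (h - 1) g else U) ∧
          (if 0 < h then tb N r l b q i (h - 1) g else U) ≤ 1 ∧
          1 - (if 0 < h then tb N r l b q i (h - 1) g else U) ≤ _ ∧
          1 - (if 0 < h then tb N r l b q i (h - 1) g else U) ≤ _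
        split_ifs with hc
        · exact ih (h - 1) g (by omega) hg
        · exact ⟨u0, u1, u2, u3⟩
      have x2 : 0 ≤ x 2 ∧ x 2 ≤ 1 ∧ 1 - x 2 ≤ tbnS e q ρ μ i h ∧
          1 - x 2 ≤ (if g + 1 < q then tbnS e q ρ' μ' i (g + 1) else tbnS e q ρ' μ' i g) := by
        show 0 ≤ (if g + 1 < q then tb N r l b q i h (g + 1) else U) ∧
          (if g + 1 < q then tb N r l b q i h (g + 1) else U) ≤ 1 ∧
          1 - (if g + 1 < q then tb N r l b q i h (g + 1) else U) ≤ _ ∧
          1 - (if g + 1 < q then tb N r l b q i h (g + 1) else U) ≤ _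
        split_ifs with hc
        · exact ih h (g + 1) hh hc
        · exact ⟨u0, u1, u2, u3⟩
      have x3 : 0 ≤ x 3 ∧ x 3 ≤ 1 ∧ 1 - x 3 ≤ tbnS e q ρ μ i h ∧
          1 - x 3 ≤ (if 0 < g then tbnS e q ρ' μ' i (g - 1) else tbnS e q ρ' μ' i g) := by
        show 0 ≤ (if 0 < g then tb N r l b q i h (g - 1) else U) ∧
          (if 0 < g then tb N r l b q i h (g - 1) else U) ≤ 1 ∧
          1 - (if 0 < g then tb N r l b q i h (g - 1) else U) ≤ _ ∧
          1 - (if 0 < g then tb N r l b q i h (g - 1) else U) ≤ _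
        split_ifs with hc
        · exact ih h (g - 1) hh (by omega)
        · exact ⟨u0, u1, u2, u3⟩
      have hstep : tb N r l b q (i + 1) h g =
          U + e * (a 0 * (x 0 - U) + a 1 * (x 1 - U) + a 2 * (x 2 - U) + a 3 * (x 3 - U) -
            k * U) := by
        show U + (1 / (2 * N)) * (
          (if h + 1 < q then r (b - 1 - h) * (tb N r l b q i (h + 1) g - U) else 0) +
          (if 0 < h then l (b - h) * (tb N r l b q i (h - 1) g - U) else 0) +
          (if g + 1 < q then r (b + g + 1) * (tb N r l b q i h (g + 1) - U) else 0) +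
          (if 0 < g then l (b + g) * (tb N r l b q i h (g - 1) - U) else 0) -
          (if h = 0 ∧ g = 0 then l b * U else 0)) =
          U + e * ((if h + 1 < q then ρ h else 0) *
              ((if h + 1 < q then tb N r l b q i (h + 1) g else U) - U) +
            (if 0 < h then μ h else 0) * ((if 0 < h then tb N r l b q i (h - 1) g else U) - U) +
            (if g + 1 < q then ρ' g else 0) *
              ((if g + 1 < q then tb N r l b q i h (g + 1) else U) - U) +
            (if 0 < g then μ' g else 0) * ((if 0 < g then tb N r l b q i h (g - 1) else U) - U) -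
            (if h = 0 ∧ g = 0 then l b else 0) * U)
        have t1 : (if h + 1 < q then r (b - 1 - h) * (tb N r l b q i (h + 1) g - U) else 0) =
            (if h + 1 < q then ρ h else 0) *
              ((if h + 1 < q then tb N r l b q i (h + 1) g else U) - U) := by
          split_ifs
          · rfl
          · ring
        have t2 : (if 0 < h then l (b - h) * (tb N r l b q i (h - 1) g - U) else 0) =
            (if 0 < h then μ h else 0) * ((if 0 < h then tb N r l b q i (h - 1) g else U) - U) := by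
          split_ifs
          · rfl
          · ring
        have t3 : (if g + 1 < q then r (b + g + 1) * (tb N r l b q i h (g + 1) - U) else 0) =
            (if g + 1 < q then ρ' g else 0) *
              ((if g + 1 < q then tb N r l b q i h (g + 1) else U) - U) := by
          split_ifs
          · rfl
          · ring
        have t4 : (if 0 < g then l (b + g) * (tb N r l b q i h (g - 1) - U) else 0) =
            (if 0 < g then μ' g else 0) * ((if 0 < g then tb N r l b q i h (g - 1) else U) - U) := by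
          split_ifs
          · rfl
          · ring
        have t5 : (if h = 0 ∧ g = 0 then l b * U else 0) = (if h = 0 ∧ g = 0 then l b else 0) * U := by
          split_ifs
          · rfl
          · ring
        rw [t1, t2, t3, t4, t5]
      rw [hstep]
      have ha_all : ∀ j, 0 ≤ a j := by
        intro j
        fin_cases j
        · exact a0.1
        · exact a1.1
        · exact a2.1
        · exact a3.1
      have hx_all : ∀ j, 0 ≤ x j := by
        intro j
        fin_cases j
        · exact x0.1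
        · exact x1.1
        · exact x2.1
        · exact x3.1
      have hx_all' : ∀ j, x j ≤ 1 := by
        intro j
        fin_cases j
        · exact x0.2.1
        · exact x1.2.1
        · exact x2.2.1
        · exact x3.2.1
      have hb := tbn_arith x a he he' ha_all hk0 hsum u0 u1 hx_all hx_all'
      refine ⟨hb.1, hb.2, ?_, ?_⟩
      · have hkU : k * U ≤ (if h = 0 then 1 else 0) := by
          rw [hk]
          by_cases hc : h = 0 ∧ g = 0
          · rw [if_pos hc, if_pos hc.1]
            have := mul_le_mul hlb.2.2.2 u1 u0 zero_le_one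
            linarith
          · rw [if_neg hc, zero_mul]
            split_ifs
            · exact zero_le_one
            · exact le_rfl
        have h2 := tbn_arith2 x a he he' ha_all (by linarith) hk0 hkU u2 x0.2.2.1 x1.2.2.1
          x2.2.2.1 x3.2.2.1
        refine h2.trans (le_of_eq ?_)
        show tbnS e q ρ μ i h + e * ((if h + 1 < q then ρ h else 0) *
              ((if h + 1 < q then tbnS e q ρ μ i (h + 1) else tbnS e q ρ μ i h) - tbnS e q ρ μ i h) +
            (if 0 < h then μ h else 0) *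
              ((if 0 < h then tbnS e q ρ μ i (h - 1) else tbnS e q ρ μ i h) - tbnS e q ρ μ i h)) +
            e * (if h = 0 then 1 else 0) =
          tbnS e q ρ μ i h + e * (
            (if h + 1 < q then ρ h * (tbnS e q ρ μ i (h + 1) - tbnS e q ρ μ i h) else 0) +
            (if 0 < h then μ h * (tbnS e q ρ μ i (h - 1) - tbnS e q ρ μ i h) else 0)) +
            (if h = 0 then e else 0)
        split_ifs <;> ring
      · have hkU : k * U ≤ (if g = 0 then 1 else 0) := by
          rw [hk]
          by_cases hc : h = 0 ∧ g = 0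
          · rw [if_pos hc, if_pos hc.2]
            have := mul_le_mul hlb.2.2.2 u1 u0 zero_le_one
            linarith
          · rw [if_neg hc, zero_mul]
            split_ifs
            · exact zero_le_one
            · exact le_rfl
        have hsum' : a 2 + a 3 + a 0 + a 1 ≤ 4 := by linarith
        have h2 := tbn_arith2 (e := e) (U := U) (k := k) (S := tbnS e q ρ' μ' i g)
          (s0 := if g + 1 < q then tbnS e q ρ' μ' i (g + 1) else tbnS e q ρ' μ' i g)
          (s1 := if 0 < g then tbnS e q ρ' μ' i (g - 1) else tbnS e q ρ' μ' i g)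
          (δ := if g = 0 then 1 else 0) ![x 2, x 3, x 0, x 1] ![a 2, a 3, a 0, a 1] he he'
          (by
            intro j
            fin_cases j
            · exact a2.1
            · exact a3.1
            · exact a0.1
            · exact a1.1) hsum' hk0 hkU u3 x2.2.2.2 x3.2.2.2 x0.2.2.2 x1.2.2.2
        have h2' : 1 - (U + e * (a 2 * (x 2 - U) + a 3 * (x 3 - U) + a 0 * (x 0 - U) +
            a 1 * (x 1 - U) - k * U)) ≤ tbnS e q ρ' μ' i g + e * (a 2 *
              ((if g + 1 < q then tbnS e q ρ' μ' i (g + 1) else tbnS e q ρ' μ' i g) -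
                tbnS e q ρ' μ' i g) +
            a 3 * ((if 0 < g then tbnS e q ρ' μ' i (g - 1) else tbnS e q ρ' μ' i g) -
              tbnS e q ρ' μ' i g)) + e * (if g = 0 then 1 else 0) := h2
        have h3 : tbnS e q ρ' μ' (i + 1) g = tbnS e q ρ' μ' i g + e * (a 2 *
              ((if g + 1 < q then tbnS e q ρ' μ' i (g + 1) else tbnS e q ρ' μ' i g) -
                tbnS e q ρ' μ' i g) +
            a 3 * ((if 0 < g then tbnS e q ρ' μ' i (g - 1) else tbnS e q ρ' μ' i g) -
              tbnS e q ρ' μ' i g)) + e * (if g = 0 then 1 else 0) := by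
          show tbnS e q ρ' μ' i g + e * (
            (if g + 1 < q then ρ' g * (tbnS e q ρ' μ' i (g + 1) - tbnS e q ρ' μ' i g) else 0) +
            (if 0 < g then μ' g * (tbnS e q ρ' μ' i (g - 1) - tbnS e q ρ' μ' i g) else 0)) +
            (if g = 0 then e else 0) =
            tbnS e q ρ' μ' i g + e * ((if g + 1 < q then ρ' g else 0) *
              ((if g + 1 < q then tbnS e q ρ' μ' i (g + 1) else tbnS e q ρ' μ' i g) -
                tbnS e q ρ' μ' i g) +
            (if 0 < g then μ' g else 0) *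
              ((if 0 < g then tbnS e q ρ' μ' i (g - 1) else tbnS e q ρ' μ' i g) -
              tbnS e q ρ' μ' i g)) + e * (if g = 0 then 1 else 0)
          split_ifs <;> ring
        rw [h3]
        linarith [h2']
  -- reversibility weights
  have w1 : ∀ i h, h < q → tbnS e q ρ μ i h ≤ i * e * RR r l (b - 1 - h) (b - 1) := by
    intro i h hh
    refine tbn_bound e q ρ μ (fun h => RR r l (b - 1 - h) (b - 1)) he he' hρ1 hμ1 ?_ ?_ ?_ i h hh
    · simp [RR]
    · intro j hj
      exact hRRpos _ _ (by omega)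
    · intro j hj
      show RR r l (b - 1 - (j + 1)) (b - 1) * r (b - 1 - j) =
        RR r l (b - 1 - j) (b - 1) * l (b - (j + 1))
      have e1 : b - (j + 1) = b - 1 - j := by omega
      have hsplit : RR r l (b - 1 - (j + 1)) (b - 1) =
          l (b - 1 - j) / r (b - 1 - j) * RR r l (b - 1 - j) (b - 1) := by
        unfold RR
        have hI : Finset.Ioc (b - 1 - (j + 1)) (b - 1) =
            insert (b - 1 - j) (Finset.Ioc (b - 1 - j) (b - 1)) := by
          ext c
          simp only [Finset.mem_Ioc, Finset.mem_insert]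
          omega
        rw [hI, Finset.prod_insert (by simp)]
      have hr := (hA (b - 1 - j) (by omega) (by omega)).1
      rw [hsplit, e1]
      field_simp
  have w2 : ∀ i g, g < q → tbnS e q ρ' μ' i g ≤ i * e * RR r l b (b + g) := by
    intro i g hg
    refine tbn_bound e q ρ' μ' (fun g => RR r l b (b + g)) he he' hρ1' hμ1' ?_ ?_ ?_ i g hg
    · simp [RR]
    · intro j hj
      exact hRRpos _ _ (by omega)
    · intro j hj
      show RR r l b (b + (j + 1)) * r (b + j + 1) = RR r l b (b + j) * l (b + (j + 1))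
      have hsplit : RR r l b (b + (j + 1)) =
          l (b + j + 1) / r (b + j + 1) * RR r l b (b + j) := by
        unfold RR
        have hI : Finset.Ioc b (b + (j + 1)) = insert (b + j + 1) (Finset.Ioc b (b + j)) := by
          ext c
          simp only [Finset.mem_Ioc, Finset.mem_insert]
          omega
        rw [hI, Finset.prod_insert (by simp)]
      have hr := (hA (b + j + 1) (by omega) (by omega)).1
      rw [hsplit]
      have e1 : b + (j + 1) = b + j + 1 := by omega
      rw [e1]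
      field_simp
  intro i h g hh hg
  obtain ⟨m0, m1, m2, m3⟩ := main i h g hh hg
  have e1 : (i : ℝ) / (2 * N) = i * e := by rw [hedef]; ring
  rw [e1]
  exact ⟨m0, m1, m2.trans (w1 i h hh), m3.trans (w2 i g hg)⟩

end Pool.Agent.Helper98.EX
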